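import Mathlib

/-!
# Propagation times of minimum zero forcing sets of hypercubes

The 6-dimensional hypercube has a minimum zero forcing set with propagation time 18, so
`PT(Q_6) ≥ 18 > 2 ^ (6 - 2) = 16`.

The lower bound `Z(Q_6) ≥ 32` is proved by linear algebra over the field with two elements (the
adjacency matrix squares to zero); the propagation of the explicit set is computed with bit masks.
-/

namespace Pool.Agent.Results.MP_d17388_co.SixCube

section defs

variable {V : Type*}

/-- One round of zero forcing: every vertex `w` which is the only neighbour outside `B` of some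
`v ∈ B` is added. -/
def step (G : SimpleGraph V) (B : Set V) : Set V :=
  B ∪ {w | w ∉ B ∧ ∃ v ∈ B, G.Adj v w ∧ ∀ z, G.Adj v z → z ∉ B → z = w}

/-- The filled set after `t` rounds. -/
def filled (G : SimpleGraph V) (S : Set V) : ℕ → Set V
  | 0 => S
  | t + 1 => step G (filled G S t)

/-- `S` is a zero forcing set. -/
def IsForcing (G : SimpleGraph V) (S : Set V) : Prop := ∃ t, filled G S t = Set.univ

/-- The zero forcing number. -/
noncomputable def zNumber (G : SimpleGraph V) : ℕ :=
  sInf {k | ∃ S : Finset V, IsForcing G (S : Set V) ∧ S.card = k}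

/-- `S` is a minimum zero forcing set. -/
def IsMinimum (G : SimpleGraph V) (S : Finset V) : Prop :=
  IsForcing G (S : Set V) ∧ S.card = zNumber G

/-- The propagation time of `S`. -/
noncomputable def pt (G : SimpleGraph V) (S : Finset V) : ℕ :=
  sInf {t | filled G (S : Set V) t = Set.univ}

/-- The minimum propagation time `pt(G)`. -/
noncomputable def ptMin (G : SimpleGraph V) : ℕ :=
  sInf {t | ∃ S : Finset V, IsMinimum G S ∧ pt G S = t}

/-- The maximum propagation time `PT(G)`. -/
noncomputable def ptMax (G : SimpleGraph V) : ℕ :=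
  sSup {t | ∃ S : Finset V, IsMinimum G S ∧ pt G S = t}

theorem filled_mono_time (G : SimpleGraph V) (S : Set V) {s t : ℕ} (h : s ≤ t) :
    filled G S s ⊆ filled G S t := by
  induction h with
  | refl => exact subset_rfl
  | step _ ih => exact ih.trans Set.subset_union_left

end defs

/-- The hypercube `Q_d`: two vertices are adjacent if they differ in exactly one coordinate. -/
def hypercube (d : ℕ) : SimpleGraph (Fin d → Bool) where
  Adj x y := hammingDist x y = 1
  symm := ⟨fun x y h => by rw [hammingDist_comm]; exact h⟩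
  loopless := ⟨fun x h => by rw [hammingDist_self] at h; exact absurd h (by norm_num)⟩

/-- Flip coordinate `i`. -/
def flip {d : ℕ} (i : Fin d) (x : Fin d → Bool) : Fin d → Bool := Function.update x i (!x i)

theorem flip_flip {d : ℕ} (i : Fin d) (x : Fin d → Bool) : flip i (flip i x) = x := by
  unfold flip
  rw [Function.update_self, Function.update_idem, Bool.not_not, Function.update_eq_self]

theorem flip_comm {d : ℕ} (i j : Fin d) (x : Fin d → Bool) :
    flip i (flip j x) = flip j (flip i x) := by
  by_cases h : i = j
  · rw [h]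
  · unfold flip
    rw [Function.update_of_ne h, Function.update_of_ne (Ne.symm h), Function.update_comm h]

theorem adj_iff {d : ℕ} (x y : Fin d → Bool) :
    (hypercube d).Adj x y ↔ ∃ i, y = flip i x := by
  show hammingDist x y = 1 ↔ _
  unfold hammingDist
  rw [Finset.card_eq_one]
  constructor
  · rintro ⟨i, hi⟩
    refine ⟨i, ?_⟩
    funext j
    by_cases hj : j = i
    · subst hj
      have : j ∈ Finset.univ.filter (fun i => x i ≠ y i) := by rw [hi]; simp
      rw [Finset.mem_filter] at this
      rw [flip, Function.update_self]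
      cases hx : x j <;> cases hy : y j <;> simp_all
    · rw [flip, Function.update_of_ne hj]
      by_contra hne
      have : j ∈ Finset.univ.filter (fun i => x i ≠ y i) := by
        rw [Finset.mem_filter]
        exact ⟨Finset.mem_univ _, fun h => hne h.symm⟩
      rw [hi, Finset.mem_singleton] at this
      exact hj this
  · rintro ⟨i, rfl⟩
    refine ⟨i, ?_⟩
    ext j
    rw [Finset.mem_filter, Finset.mem_singleton]
    by_cases hj : j = i
    · subst hj
      simp [flip]
    · simp [flip, hj]

/-! ## Lower bound for the zero forcing number of `Q_6` -/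

/-- The adjacency operator of `Q_6` over the field with two elements. -/
def adjMap : ((Fin 6 → Bool) → ZMod 2) →ₗ[ZMod 2] ((Fin 6 → Bool) → ZMod 2) where
  toFun x v := ∑ i : Fin 6, x (flip i v)
  map_add' x y := by
    funext v
    simp [Finset.sum_add_distrib]
  map_smul' c x := by
    funext v
    simp [Finset.mul_sum]

/-- A fixed-point free involution on pairs of indices. -/
def sw (a : Fin 6 × Fin 6) : Fin 6 × Fin 6 :=
  if a.1 = a.2 then (![1, 0, 3, 2, 5, 4] a.1, ![1, 0, 3, 2, 5, 4] a.1) else (a.2, a.1)

theorem sw_ne (a : Fin 6 × Fin 6) : sw a ≠ a := by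
  revert a
  decide

theorem sw_sw (a : Fin 6 × Fin 6) : sw (sw a) = a := by
  revert a
  decide

theorem adjMap_adjMap (x : (Fin 6 → Bool) → ZMod 2) : adjMap (adjMap x) = 0 := by
  funext v
  show ∑ i : Fin 6, ∑ j : Fin 6, x (flip j (flip i v)) = 0
  rw [← Finset.sum_product']
  have hval : ∀ a : Fin 6 × Fin 6, x (flip (sw a).2 (flip (sw a).1 v)) =
      x (flip a.2 (flip a.1 v)) := by
    rintro ⟨i, j⟩
    unfold sw
    by_cases h : i = j
    · subst h
      simp only [if_true]
      rw [flip_flip, flip_flip]
    · simp only [h, if_false]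
      rw [flip_comm]
  refine Finset.sum_involution (fun a _ => sw a) ?_ ?_ ?_ ?_
  · intro a _
    show x (flip a.2 (flip a.1 v)) + x (flip (sw a).2 (flip (sw a).1 v)) = 0
    rw [hval a]
    exact CharTwo.add_self_eq_zero _
  · intro a _ _
    exact sw_ne a
  · intro a _
    exact Finset.mem_univ _
  · intro a _
    exact sw_sw a

theorem finrank_ker : 32 ≤ Module.finrank (ZMod 2) (LinearMap.ker adjMap) := by
  have h1 := LinearMap.finrank_range_add_finrank_ker adjMap
  have h2 : Module.finrank (ZMod 2) ((Fin 6 → Bool) → ZMod 2) = 64 := by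
    rw [Module.finrank_pi]
    simp
  have h3 : LinearMap.range adjMap ≤ LinearMap.ker adjMap := by
    rintro _ ⟨x, rfl⟩
    exact adjMap_adjMap x
  have h4 := Submodule.finrank_mono h3
  omega

theorem ker_vanish {S : Set (Fin 6 → Bool)} {x : (Fin 6 → Bool) → ZMod 2}
    (hx : adjMap x = 0) (hS : ∀ v ∈ S, x v = 0) (t : ℕ) :
    ∀ v ∈ filled (hypercube 6) S t, x v = 0 := by
  induction t with
  | zero => exact hS
  | succ t ih =>
    rintro w (hw | ⟨hw, v, hv, hvw, hz⟩)
    · exact ih w hw
    · obtain ⟨i, rfl⟩ := (adj_iff _ _).1 hvw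
      have h0 : ∑ j : Fin 6, x (flip j v) = 0 := congrFun hx v
      rw [Finset.sum_eq_single i] at h0
      · exact h0
      · intro j _ hj
        by_contra hne
        have hnot : flip j v ∉ filled (hypercube 6) S t := fun h => hne (ih _ h)
        have := hz (flip j v) ((adj_iff _ _).2 ⟨j, rfl⟩) hnot
        have h1 := congrFun this j
        unfold flip at h1
        rw [Function.update_self, Function.update_of_ne hj] at h1
        cases hb : v j <;> simp [hb] at h1
      · intro h
        exact absurd (Finset.mem_univ _) h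

theorem le_card {S : Finset (Fin 6 → Bool)} (hS : IsForcing (hypercube 6) (S : Set _)) :
    32 ≤ S.card := by
  obtain ⟨t, ht⟩ := hS
  let r : LinearMap.ker adjMap →ₗ[ZMod 2] (S → ZMod 2) :=
    { toFun := fun x v => x.1 v.1
      map_add' := fun _ _ => rfl
      map_smul' := fun _ _ => rfl }
  have hinj : Function.Injective r := by
    rw [← LinearMap.ker_eq_bot, LinearMap.ker_eq_bot']
    rintro ⟨x, hx⟩ h
    apply Subtype.ext
    funext v
    refine ker_vanish hx (fun u hu => ?_) t v (by rw [ht]; trivial)
    exact congrFun h ⟨u, hu⟩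
  have h := LinearMap.finrank_le_finrank_of_injective hinj
  rw [Module.finrank_pi, Fintype.card_coe] at h
  exact finrank_ker.trans h

/-! ## Bit masks -/

/-- The number of a vertex. -/
def code (x : Fin 6 → Bool) : ℕ :=
  (x 0).toNat + 2 * (x 1).toNat + 4 * (x 2).toNat + 8 * (x 3).toNat + 16 * (x 4).toNat +
    32 * (x 5).toNat

/-- The vertex with a given number. -/
def decode (k : ℕ) : Fin 6 → Bool := fun i => k.testBit i.val

theorem decode_code : ∀ x : Fin 6 → Bool, decode (code x) = x := by
  decide +kernel

theorem code_decode : ∀ k < 64, code (decode k) = k := by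
  decide +kernel

theorem code_lt (x : Fin 6 → Bool) : code x < 64 := by
  unfold code
  have := Bool.toNat_le (x 0)
  have := Bool.toNat_le (x 1)
  have := Bool.toNat_le (x 2)
  have := Bool.toNat_le (x 3)
  have := Bool.toNat_le (x 4)
  have := Bool.toNat_le (x 5)
  omega

/-- The neighbourhood of the vertex with number `k` as a bit mask. -/
def nbm (k : ℕ) : ℕ :=
  2 ^ (k ^^^ 1) ||| 2 ^ (k ^^^ 2) ||| 2 ^ (k ^^^ 4) ||| 2 ^ (k ^^^ 8) ||| 2 ^ (k ^^^ 16) |||
    2 ^ (k ^^^ 32)

theorem code_flip : ∀ (x : Fin 6 → Bool) (i : Fin 6), code (flip i x) = code x ^^^ 2 ^ i.val := by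
  decide +kernel

theorem testBit_nbm (v : Fin 6 → Bool) (j : ℕ) : (nbm (code v)).testBit j = true ↔
    ∃ i : Fin 6, code (flip i v) = j := by
  unfold nbm
  simp only [Nat.testBit_or, Nat.testBit_two_pow, Bool.or_eq_true, decide_eq_true_iff]
  constructor
  · rintro (((((h | h) | h) | h) | h) | h)
    exacts [⟨0, (code_flip v 0).trans h⟩, ⟨1, (code_flip v 1).trans h⟩,
      ⟨2, (code_flip v 2).trans h⟩, ⟨3, (code_flip v 3).trans h⟩, ⟨4, (code_flip v 4).trans h⟩,
      ⟨5, (code_flip v 5).trans h⟩]
  · rintro ⟨i, rfl⟩
    rw [code_flip]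
    fin_cases i <;> simp

/-- The set encoded by a mask. -/
def ofMask (m : ℕ) : Set (Fin 6 → Bool) := {v | m.testBit (code v) = true}

/-- A device which makes the kernel evaluate `x` first. -/
def force {α : Type} (x : ℕ) (f : ℕ → α) : α :=
  match x with
  | 0 => f 0
  | n + 1 => f (n + 1)

theorem force_eq {α : Type} (x : ℕ) (f : ℕ → α) : force x f = f x := by
  cases x <;> rfl

/-- The white neighbours of `k`. -/
def white (B k : ℕ) : ℕ := nbm k &&& (18446744073709551615 ^^^ B)

/-- The vertices forced by the members of `B` below `k`. -/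
def forcedBy (B : ℕ) : ℕ → ℕ
  | 0 => 0
  | k + 1 => (if B.testBit k then
      force (white B k) (fun x => if x == 2 ^ Nat.log2 x then x else 0) else 0) ||| forcedBy B k

theorem testBit_forcedBy (B n j : ℕ) : (forcedBy B n).testBit j = true ↔
    ∃ k < n, B.testBit k = true ∧ white B k = 2 ^ j := by
  induction n with
  | zero => simp [forcedBy]
  | succ n ih =>
    rw [forcedBy, Nat.testBit_or, Bool.or_eq_true, ih, force_eq]
    have hone : ((if B.testBit n then (if white B n == 2 ^ Nat.log2 (white B n) then white B n
        else 0) else 0).testBit j = true) ↔ (B.testBit n = true ∧ white B n = 2 ^ j) := by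
      by_cases h1 : B.testBit n = true
      · rw [if_pos h1]
        by_cases h2 : (white B n == 2 ^ Nat.log2 (white B n)) = true
        · rw [if_pos h2]
          rw [beq_iff_eq] at h2
          constructor
          · intro h
            rw [h2, Nat.testBit_two_pow, decide_eq_true_iff] at h
            exact ⟨h1, by rw [h2, h]⟩
          · rintro ⟨_, h⟩
            rw [h, Nat.testBit_two_pow, decide_eq_true_iff]
        · rw [if_neg h2]
          constructor
          · intro h
            simp at h
          · rintro ⟨_, h⟩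
            exfalso
            apply h2
            rw [beq_iff_eq, h, Nat.log2_two_pow]
      · rw [if_neg h1]
        constructor
        · intro h
          simp at h
        · rintro ⟨h, _⟩
          exact absurd h h1
    rw [hone]
    constructor
    · rintro (h | ⟨k, hk, h⟩)
      · exact ⟨n, Nat.lt_succ_self n, h⟩
      · exact ⟨k, Nat.lt_succ_of_lt hk, h⟩
    · rintro ⟨k, hk, h⟩
      rcases Nat.lt_succ_iff_lt_or_eq.1 hk with hk | rfl
      · exact Or.inr ⟨k, hk, h⟩
      · exact Or.inl h

/-- One round on masks. -/
def mstep (B : ℕ) : ℕ := B ||| forcedBy B 64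

theorem white_eq_iff (B : ℕ) (v w : Fin 6 → Bool) : white B (code v) = 2 ^ code w ↔
    ((hypercube 6).Adj v w ∧ w ∉ ofMask B ∧
      ∀ z, (hypercube 6).Adj v z → z ∉ ofMask B → z = w) := by
  have hbit : ∀ j, (white B (code v)).testBit j = true ↔
      ∃ z, (hypercube 6).Adj v z ∧ z ∉ ofMask B ∧ code z = j := by
    intro j
    rw [white, Nat.testBit_and, Bool.and_eq_true, testBit_nbm, Nat.testBit_xor,
      show (18446744073709551615 : ℕ) = 2 ^ 64 - 1 by norm_num, Nat.testBit_two_pow_sub_one]
    constructor
    · rintro ⟨⟨i, rfl⟩, h⟩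
      refine ⟨flip i v, (adj_iff _ _).2 ⟨i, rfl⟩, ?_, rfl⟩
      intro hmem
      have hmem' : B.testBit (code (flip i v)) = true := hmem
      rw [hmem'] at h
      simp [code_lt] at h
    · rintro ⟨z, hz, hzB, rfl⟩
      obtain ⟨i, rfl⟩ := (adj_iff _ _).1 hz
      refine ⟨⟨i, rfl⟩, ?_⟩
      have : B.testBit (code (flip i v)) = false := by
        cases h : B.testBit (code (flip i v)) with
        | false => rfl
        | true => exact absurd h hzB
      rw [this]
      simp [code_lt]
  constructor
  · intro h
    have h1 := (hbit (code w)).1 (by rw [h, Nat.testBit_two_pow, decide_eq_true_iff])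
    obtain ⟨z, hz, hzB, hc⟩ := h1
    have hzw : z = w := by rw [← decode_code z, hc, decode_code]
    subst hzw
    refine ⟨hz, hzB, fun y hy hyB => ?_⟩
    have h2 := (hbit (code y)).2 ⟨y, hy, hyB, rfl⟩
    rw [h, Nat.testBit_two_pow, decide_eq_true_iff] at h2
    rw [← decode_code y, ← h2, decode_code]
  · rintro ⟨h1, h2, h3⟩
    apply Nat.eq_of_testBit_eq
    intro j
    rw [Bool.eq_iff_iff, hbit, Nat.testBit_two_pow, decide_eq_true_iff]
    constructor
    · rintro ⟨z, hz, hzB, rfl⟩
      rw [h3 z hz hzB]
    · rintro rfl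
      exact ⟨w, h1, h2, rfl⟩

theorem ofMask_mstep (B : ℕ) : ofMask (mstep B) = step (hypercube 6) (ofMask B) := by
  ext w
  show (mstep B).testBit (code w) = true ↔ _
  rw [mstep, Nat.testBit_or, Bool.or_eq_true, testBit_forcedBy]
  constructor
  · rintro (h | ⟨k, hk, hkB, hw⟩)
    · exact Or.inl h
    · right
      have hk' : code (decode k) = k := code_decode k hk
      rw [← hk', white_eq_iff] at hw
      obtain ⟨h1, h2, h3⟩ := hw
      refine ⟨h2, decode k, ?_, h1, h3⟩
      show B.testBit (code (decode k)) = true
      rw [hk']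
      exact hkB
  · rintro (h | ⟨h2, v, hv, h1, h3⟩)
    · exact Or.inl h
    · exact Or.inr ⟨code v, code_lt v, hv, (white_eq_iff B v w).2 ⟨h1, h2, h3⟩⟩

/-- `t` rounds on masks. -/
def run : ℕ → ℕ → ℕ
  | 0, B => B
  | t + 1, B => force (mstep B) (run t)

theorem filled_succ' {V : Type*} (G : SimpleGraph V) (S : Set V) (t : ℕ) :
    filled G S (t + 1) = filled G (step G S) t := by
  induction t with
  | zero => rfl
  | succ t ih => rw [filled, ih, filled]

theorem filled_ofMask (t : ℕ) : ∀ B : ℕ, filled (hypercube 6) (ofMask B) t = ofMask (run t B) := by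
  induction t with
  | zero => exact fun B => rfl
  | succ t ih =>
    intro B
    rw [filled_succ', ← ofMask_mstep, ih, run, force_eq]

/-! ## The example -/

/-- The mask of the zero forcing set. -/
def start : ℕ := 1088003016077366442

/-- The zero forcing set. -/
def startSet : Finset (Fin 6 → Bool) := Finset.univ.filter (fun v => start.testBit (code v) = true)

theorem coe_startSet : (startSet : Set (Fin 6 → Bool)) = ofMask start := by
  ext v
  simp [startSet, ofMask]

theorem card_startSet : startSet.card = 32 := by
  decide +kernel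

theorem run18 : run 18 start = 18446744073709551615 := by
  decide +kernel

theorem run17 : (run 17 start).testBit (code (decode ((run 17 start ^^^ 18446744073709551615).log2)))
    = false := by
  decide +kernel

theorem filled18 : filled (hypercube 6) (startSet : Set _) 18 = Set.univ := by
  rw [coe_startSet, filled_ofMask, run18]
  ext v
  simp only [Set.mem_univ, iff_true]
  show (18446744073709551615 : ℕ).testBit (code v) = true
  rw [show (18446744073709551615 : ℕ) = 2 ^ 64 - 1 by norm_num, Nat.testBit_two_pow_sub_one,
    decide_eq_true_iff]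
  exact code_lt v

theorem filled17 : filled (hypercube 6) (startSet : Set _) 17 ≠ Set.univ := by
  rw [coe_startSet, filled_ofMask]
  intro h
  have h1 : decode ((run 17 start ^^^ 18446744073709551615).log2) ∈ ofMask (run 17 start) := by
    rw [h]; trivial
  have h2 := run17
  rw [show (run 17 start).testBit (code (decode ((run 17 start ^^^ 18446744073709551615).log2)))
    = true from h1] at h2
  exact absurd h2 (by decide)

theorem zNumber_six : zNumber (hypercube 6) = 32 := by
  apply le_antisymm
  · exact Nat.sInf_le ⟨startSet, ⟨18, filled18⟩, card_startSet⟩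
  · refine le_csInf ⟨32, startSet, ⟨18, filled18⟩, card_startSet⟩ ?_
    rintro k ⟨S, hS, rfl⟩
    exact le_card hS

theorem pt_startSet : pt (hypercube 6) startSet = 18 := by
  apply le_antisymm (Nat.sInf_le filled18)
  apply le_csInf ⟨18, filled18⟩
  intro s hs
  by_contra hlt
  apply filled17
  apply Set.eq_univ_of_univ_subset
  have hs' : filled (hypercube 6) (startSet : Set _) s = Set.univ := hs
  rw [← hs']
  exact filled_mono_time _ _ (by omega)

theorem isMinimum_startSet : IsMinimum (hypercube 6) startSet :=
  ⟨⟨18, filled18⟩, by rw [card_startSet, zNumber_six]⟩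

theorem le_ptMax : 18 ≤ ptMax (hypercube 6) := by
  apply le_csSup
  · have : {t | ∃ S : Finset (Fin 6 → Bool), IsMinimum (hypercube 6) S ∧
        pt (hypercube 6) S = t} ⊆ Set.range (fun S : Finset (Fin 6 → Bool) =>
          pt (hypercube 6) S) := by
      rintro t ⟨S, _, h⟩
      exact ⟨S, h⟩
    exact ((Set.finite_range _).subset this).bddAbove
  · exact ⟨startSet, isMinimum_startSet, pt_startSet⟩

/-- **Disproof.** The 6-dimensional hypercube has zero forcing number 32 and a minimum zero forcing
set with propagation time 18, so `PT(Q_6) ≥ 18 > 2 ^ (6 - 2)`; the conjecture fails for `d = 6`. -/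
theorem result :
    (∃ S : Finset (Fin 6 → Bool), IsMinimum (hypercube 6) S ∧ S.card = 32 ∧
      pt (hypercube 6) S = 18) ∧
    18 ≤ ptMax (hypercube 6) ∧
    ¬ ∀ d : ℕ, 2 ≤ d → ptMin (hypercube d) = 1 ∧ ptMax (hypercube d) = 2 ^ (d - 2) ∧
      ∀ k, ptMin (hypercube d) ≤ k → k ≤ ptMax (hypercube d) →
        ∃ S : Finset (Fin d → Bool), IsMinimum (hypercube d) S ∧ pt (hypercube d) S = k := by
  refine ⟨⟨startSet, isMinimum_startSet, card_startSet, pt_startSet⟩, le_ptMax, ?_⟩
  intro h
  have h1 := (h 6 (by norm_num)).2.1
  have h2 := le_ptMax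
  rw [h1] at h2
  exact absurd h2 (by norm_num)

end Pool.Agent.Results.MP_d17388_co.SixCube
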